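import Mathlib
import Pool.Agent.Results.MP_d48457_nt.EveryModulus
import Pool.Agent.Helper256.KM.Mertens

/-!
# Lower bound for the singular series
-/

set_option autoImplicit false

namespace Pool.Agent.V8H34.PPC

open Finset
open Pool.Agent.Results.MP_d48457_nt.EveryModulus (roots Sing Rep Good exceptions)

/-- the product over the primes up to `z` -/
noncomputable def V (z : ℕ) : ℝ := ∏ p ∈ (Icc 1 z).filter Nat.Prime, (1 - 1 / (p : ℝ))

theorem V_pos (z : ℕ) : 0 < V z := by
  unfold V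
  refine prod_pos fun p hp => ?_
  have h2 : (2 : ℝ) ≤ p := by exact_mod_cast (mem_filter.1 hp).2.two_le
  rw [sub_pos, div_lt_one (by linarith)]
  linarith

theorem filt_succ (z : ℕ) : (Icc 1 (z + 1)).filter Nat.Prime =
    if (z + 1).Prime then insert (z + 1) ((Icc 1 z).filter Nat.Prime) else (Icc 1 z).filter Nat.Prime := by
  have h : Icc 1 (z + 1) = insert (z + 1) (Icc 1 z) := by
    ext x
    simp only [mem_Icc, mem_insert]
    omega
  rw [h, filter_insert]

theorem notMem_succ (z : ℕ) : z + 1 ∉ (Icc 1 z).filter Nat.Prime := by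
  intro h
  have := (mem_Icc.1 (mem_filter.1 h).1).2
  omega

theorem roots_eq (n p : ℕ) : roots n p = Pool.Agent.H373R2.T7.nuB (Pool.Agent.R460.SQ.QS 1 (n : ℤ)) p := by
  classical
  unfold roots Pool.Agent.H373R2.T7.nuB Pool.Agent.R460.SQ.QS
  have e : (range p).filter (fun m : ℕ => (p : ℤ) ∣ (n : ℤ) - (m : ℤ) ^ 2) =
      (range p).filter (fun m : ℕ => (p : ℤ) ∣ (n : ℤ) - 1 * (m : ℤ) ^ 2) := by
    apply filter_congr
    intro m _
    rw [one_mul]
  rw [e]
  congr 1
  ext m
  simp only [mem_filter]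

theorem roots_le_two (n : ℕ) {p : ℕ} (hp : p.Prime) : roots n p ≤ 2 := by
  rw [roots_eq]
  refine Pool.Agent.R460.SQ.QS_two (n : ℤ) p hp ?_
  intro h
  have h1 := Int.le_of_dvd one_pos h
  have h2 := hp.two_le
  omega

theorem roots_at_two (n : ℕ) : roots n 2 ≤ 1 := by
  rw [roots_eq]
  exact Pool.Agent.R460.SQ.QS_at_two (n : ℤ)

theorem sing_ge (n : ℕ) {z : ℕ} (hz : 2 ≤ z) : V z * (z / (2 * (z - 1))) ≤ Sing n z := by
  induction z, hz using Nat.le_induction with
  | base =>
    have e : (Icc 1 2).filter Nat.Prime = {2} := by decide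
    unfold V Sing
    rw [e, prod_singleton, prod_singleton]
    have h1 : (roots n 2 : ℝ) ≤ 1 := by exact_mod_cast roots_at_two n
    have h2 : (1 / 2 : ℝ) ≤ 1 - (roots n 2 : ℝ) / ((2 : ℕ) : ℝ) := by
      push_cast
      linarith
    push_cast at h2 ⊢
    norm_num at h2 ⊢
    linarith
  | succ z hz ih =>
    have hz2 : (2 : ℝ) ≤ z := by exact_mod_cast hz
    have hV := V_pos z
    by_cases hp : (z + 1).Prime
    · have e1 : V (z + 1) = (1 - 1 / ((z : ℝ) + 1)) * V z := by
        unfold V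
        rw [filt_succ, if_pos hp, prod_insert (notMem_succ z)]
        push_cast
        rfl
      have e2 : Sing n (z + 1) = (1 - (roots n (z + 1) : ℝ) / ((z : ℝ) + 1)) / (1 - 1 / ((z : ℝ) + 1)) *
          Sing n z := by
        unfold Sing
        rw [filt_succ, if_pos hp, prod_insert (notMem_succ z)]
        push_cast
        rfl
      have hr : (roots n (z + 1) : ℝ) ≤ 2 := by exact_mod_cast roots_le_two n hp
      have h1 : (1 - 2 / ((z : ℝ) + 1)) / (1 - 1 / ((z : ℝ) + 1)) ≤
          (1 - (roots n (z + 1) : ℝ) / ((z : ℝ) + 1)) / (1 - 1 / ((z : ℝ) + 1)) := by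
        have h2 : 0 < 1 - 1 / ((z : ℝ) + 1) := by
          rw [sub_pos, div_lt_one (by linarith)]
          linarith
        gcongr
      have h3 : (1 - 2 / ((z : ℝ) + 1)) / (1 - 1 / ((z : ℝ) + 1)) = (z - 1) / z := by
        have g1 : (z : ℝ) ≠ 0 := by linarith
        have g2 : (z : ℝ) + 1 ≠ 0 := by linarith
        have g3 : 1 - 2 / ((z : ℝ) + 1) = (z - 1) / (z + 1) := by
          rw [eq_div_iff g2, sub_mul, div_mul_cancel₀ _ g2]
          ring
        have g4 : 1 - 1 / ((z : ℝ) + 1) = z / (z + 1) := by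
          rw [eq_div_iff g2, sub_mul, div_mul_cancel₀ _ g2]
          ring
        rw [g3, g4, div_div_div_cancel_right₀ g2]
      rw [h3] at h1
      have h4 : 0 ≤ ((z : ℝ) - 1) / z := div_nonneg (by linarith) (by linarith)
      have h5 : ((z : ℝ) - 1) / z * (V z * (z / (2 * (z - 1)))) ≤ Sing n (z + 1) := by
        rw [e2]
        refine mul_le_mul h1 ih ?_ (h4.trans h1)
        exact mul_nonneg hV.le (div_nonneg (by linarith) (by linarith))
      refine le_trans (le_of_eq ?_) h5
      rw [e1]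
      push_cast
      have g1 : (z : ℝ) ≠ 0 := by linarith
      have g2 : (z : ℝ) + 1 ≠ 0 := by linarith
      have g3 : (z : ℝ) - 1 ≠ 0 := by linarith
      rw [add_sub_cancel_right]
      field_simp
      ring
    · have e1 : V (z + 1) = V z := by
        unfold V
        rw [filt_succ, if_neg hp]
      have e2 : Sing n (z + 1) = Sing n z := by
        unfold Sing
        rw [filt_succ, if_neg hp]
      rw [e1, e2]
      refine le_trans ?_ ih
      have : (((z + 1 : ℕ) : ℝ)) / (2 * (((z + 1 : ℕ) : ℝ) - 1)) ≤ z / (2 * (z - 1)) := by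
        push_cast
        rw [add_sub_cancel_right, div_le_div_iff₀ (by linarith) (by linarith)]
        nlinarith
      gcongr

theorem sing_ge_half (n : ℕ) {z : ℕ} (hz : 2 ≤ z) : V z / 2 ≤ Sing n z := by
  refine le_trans ?_ (sing_ge n hz)
  have hz2 : (2 : ℝ) ≤ z := by exact_mod_cast hz
  have h1 : (1 / 2 : ℝ) ≤ z / (2 * (z - 1)) := by
    rw [div_le_div_iff₀ (by norm_num) (by linarith)]
    linarith
  have := mul_le_mul_of_nonneg_left h1 (V_pos z).le
  linarith

theorem tel (z : ℕ) (hz : 1 ≤ z) :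
    ∑ p ∈ (Icc 1 z).filter Nat.Prime, 1 / ((p : ℝ) * (p - 1)) ≤ 1 - 1 / z := by
  induction z, hz using Nat.le_induction with
  | base =>
    have e : (Icc 1 1).filter Nat.Prime = ∅ := by decide
    rw [e, sum_empty]
    norm_num
  | succ z hz ih =>
    have hz1 : (1 : ℝ) ≤ z := by exact_mod_cast hz
    have h0 : 1 / ((z : ℝ) * (z + 1)) = 1 / z - 1 / (z + 1) := by
      field_simp
      ring
    by_cases hp : (z + 1).Prime
    · rw [filt_succ, if_pos hp, sum_insert (notMem_succ z)]
      push_cast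
      rw [add_sub_cancel_right]
      have h1 : 1 / (((z : ℝ) + 1) * z) = 1 / z - 1 / (z + 1) := by rw [mul_comm, h0]
      rw [h1]
      linarith
    · rw [filt_succ, if_neg hp]
      push_cast
      have h1 : 0 < 1 / ((z : ℝ) * (z + 1)) := by positivity
      linarith

theorem V_low : ∃ c : ℝ, 0 < c ∧ ∀ z : ℕ, 3 ≤ z → c / Real.log z ≤ V z := by
  obtain ⟨C, hC⟩ := Pool.Agent.Helper256.KM.mertens_inv
  refine ⟨Real.exp (-(C + 1)), Real.exp_pos _, fun z hz => ?_⟩
  have hz3 : (3 : ℝ) ≤ z := by exact_mod_cast hz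
  have hl : 0 < Real.log z := Real.log_pos (by linarith)
  have h1 : (V z)⁻¹ ≤ Real.exp (∑ p ∈ (Icc 1 z).filter Nat.Prime, (1 / (p : ℝ) + 1 / ((p : ℝ) * (p - 1)))) := by
    unfold V
    rw [← prod_inv_distrib, Real.exp_sum]
    apply prod_le_prod
    · intro p hp
      have hp2 : (2 : ℝ) ≤ p := by exact_mod_cast (mem_filter.1 hp).2.two_le
      apply inv_nonneg.2
      rw [sub_nonneg, div_le_one (by linarith)]; linarith
    · intro p hp
      have hp2 : (2 : ℝ) ≤ p := by exact_mod_cast (mem_filter.1 hp).2.two_le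
      have h6 : (1 - 1 / (p : ℝ))⁻¹ = (1 / (p : ℝ) + 1 / ((p : ℝ) * (p - 1))) + 1 := by
        have g1 : (p : ℝ) ≠ 0 := by linarith
        have g2 : (p : ℝ) - 1 ≠ 0 := by linarith
        field_simp
        ring
      rw [h6]
      exact Real.add_one_le_exp _
  have h2 : ∑ p ∈ (Icc 1 z).filter Nat.Prime, (1 / (p : ℝ) + 1 / ((p : ℝ) * (p - 1))) ≤
      Real.log (Real.log z) + (C + 1) := by
    rw [sum_add_distrib]
    have h3 := (abs_le.1 (hC z hz)).2
    have h4 := tel z (by omega)
    have h5 : (0 : ℝ) ≤ 1 / z := by positivity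
    linarith
  have h3 : (V z)⁻¹ ≤ Real.log z * Real.exp (C + 1) := by
    refine h1.trans ((Real.exp_le_exp.2 h2).trans (le_of_eq ?_))
    rw [Real.exp_add, Real.exp_log hl]
  rw [inv_le_iff_one_le_mul₀ (V_pos z)] at h3
  rw [div_le_iff₀ hl, Real.exp_neg, inv_le_iff_one_le_mul₀ (Real.exp_pos _)]
  linarith

/-- The lower bound for the singular series. -/
theorem sing_low : ∃ c : ℝ, 0 < c ∧ ∀ n z : ℕ, 3 ≤ z → c / Real.log z ≤ Sing n z := by
  obtain ⟨c, hc, h⟩ := V_low
  refine ⟨c / 2, by positivity, fun n z hz => ?_⟩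
  have h1 := h z hz
  have h2 := sing_ge_half n (z := z) (by omega)
  have h3 : c / 2 / Real.log z = (c / Real.log z) / 2 := by ring
  rw [h3]
  linarith

end Pool.Agent.V8H34.PPC
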