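import Mathlib
import Pool.Agent.V8H34.PPC.Sing

/-!
# The number of the `a` in an interval with `4 ℓ - a²` prime, for almost all `ℓ`
-/

set_option autoImplicit false

namespace Pool.Agent.V8H34.PPC

open Finset
open Pool.Agent.Results.MP_d48457_nt.EveryModulus (roots Sing Good exceptions)

/-- the weighted number of the `a` in `(u, v]` with `4 ℓ - a²` prime -/
noncomputable def W (l u v : ℕ) : ℝ :=
  ∑ m ∈ Ioc u v, if (4 * l - m ^ 2).Prime then Real.log ((4 * l - m ^ 2 : ℕ) : ℝ) else 0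

theorem rep_sub (l : ℕ) {u v : ℕ} (h : u ≤ v) :
    Results.MP_d48457_nt.EveryModulus.Rep (4 * l) v - Results.MP_d48457_nt.EveryModulus.Rep (4 * l) u =
      W l u v := by
  unfold Results.MP_d48457_nt.EveryModulus.Rep W
  have e : Icc 1 v = Icc 1 u ∪ Ioc u v := by
    ext x
    simp only [mem_union, mem_Icc, mem_Ioc]
    omega
  have hd : Disjoint (Icc 1 u) (Ioc u v) := by
    rw [disjoint_left]
    intro x hx hy
    rw [mem_Icc] at hx
    rw [mem_Ioc] at hy
    omega
  rw [e, sum_union hd]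
  ring

theorem W_le (l u v x : ℕ) (hl : l ≤ x) :
    W l u v ≤ (((Ioc u v).filter (fun m => (4 * l - m ^ 2).Prime)).card : ℝ) * Real.log (4 * x) := by
  unfold W
  rw [← sum_filter, ← nsmul_eq_mul]
  refine sum_le_card_nsmul _ _ _ fun m hm => ?_
  have hp := (mem_filter.1 hm).2
  refine Real.log_le_log (by exact_mod_cast hp.pos) ?_
  have h1 : 4 * l - m ^ 2 ≤ 4 * x := by omega
  exact_mod_cast h1

theorem tend : Filter.Tendsto (fun x : ℕ => Real.log (x : ℝ)) Filter.atTop Filter.atTop :=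
  Real.tendsto_log_atTop.comp tendsto_natCast_atTop_atTop

theorem tend2 : Filter.Tendsto (fun x : ℕ => Real.log (Real.log (x : ℝ))) Filter.atTop Filter.atTop :=
  Real.tendsto_log_atTop.comp tend

theorem ev_ll (K : ℝ) : ∀ᶠ x : ℕ in Filter.atTop, K * Real.log (Real.log x) ≤ Real.log x := by
  have hK : (0 : ℝ) < |K| + 1 := by positivity
  have h1 := (Real.isLittleO_log_id_atTop).bound (show (0 : ℝ) < 1 / (|K| + 1) by positivity)
  have h2 := tend.eventually h1
  filter_upwards [h2, tend.eventually_ge_atTop 1, tend2.eventually_ge_atTop 0] with x h3 h4 h5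
  simp only [id] at h3
  rw [Real.norm_of_nonneg h5, Real.norm_of_nonneg (by linarith : (0 : ℝ) ≤ Real.log x), one_div,
    inv_mul_eq_div, le_div_iff₀ hK] at h3
  have h6 : K ≤ |K| + 1 := (le_abs_self K).trans (by linarith)
  nlinarith

theorem count (A : ℕ) : ∃ c : ℝ, 0 < c ∧ ∃ B x₀ : ℕ, ∀ x : ℕ, x₀ ≤ x →
    ∃ S : Finset ℕ, (S.card : ℝ) ≤ x / Real.log x ^ A ∧
      ∀ l : ℕ, 1 ≤ l → l ≤ x → l ∉ S →
        c / Real.log (Real.log x) ≤ Sing (4 * l) ⌈Real.log x ^ B⌉₊ ∧
        ∀ u v : ℕ, u < v → v ^ 2 < 4 * l →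
          |W l u v - Sing (4 * l) ⌈Real.log x ^ B⌉₊ * (v - u)| ≤ Real.sqrt x / Real.log x ^ A ∧
          (Real.sqrt x / Real.log x ^ A ≤ v - u →
            c * (v - u) / (Real.log x * Real.log (Real.log x)) ≤
              (((Ioc u v).filter (fun m => (4 * l - m ^ 2).Prime)).card : ℝ)) := by
  classical
  obtain ⟨c₀, hc₀, hS⟩ := sing_low
  obtain ⟨B, hB⟩ := Pool.Agent.Results.MP_d48457_nt.EveryModulus.result (1 / 4) (by norm_num)
    (A + 1) (A + 2) 0
  obtain ⟨N₀, hN⟩ := hB (B + 2)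
  set c₁ : ℝ := c₀ / (B + 2) with hc₁
  have hc₁0 : 0 < c₁ := by positivity
  refine ⟨c₁ / 4, by positivity, B + 1, ?_⟩
  have hev : ∀ᶠ x : ℕ in Filter.atTop, (2 / c₁) * Real.log (Real.log x) ≤ Real.log x ∧
      (2 : ℝ) ^ B ≤ Real.log x ∧ 4 ≤ Real.log x ∧ 1 ≤ Real.log (Real.log x) ∧ N₀ ≤ x := by
    filter_upwards [ev_ll (2 / c₁), tend.eventually_ge_atTop ((2 : ℝ) ^ B),
      tend.eventually_ge_atTop 4, tend2.eventually_ge_atTop 1, Filter.eventually_ge_atTop N₀]
      with x h1 h2 h3 h4 h5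
    exact ⟨h1, h2, h3, h4, h5⟩
  obtain ⟨x₀, hx₀⟩ := Filter.eventually_atTop.1 hev
  refine ⟨max x₀ 4, fun x hx => ?_⟩
  obtain ⟨e1, e2, e3, e4, e5⟩ := hx₀ x (le_trans (le_max_left _ _) hx)
  have hx4 : 4 ≤ x := le_trans (le_max_right _ _) hx
  have hx4r : (4 : ℝ) ≤ x := by exact_mod_cast hx4
  set L := Real.log x with hL
  set z := ⌈L ^ (B + 1)⌉₊ with hz
  have hL0 : 0 < L := by linarith
  have hcast : ((4 * x : ℕ) : ℝ) = 4 * x := by push_cast; ring
  set L' := Real.log (4 * x) with hL'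
  have hLL' : L ≤ L' := Real.log_le_log (by linarith) (by linarith)
  have hL'2 : L' ≤ 2 * L := by
    rw [hL', hL, ← Real.log_rpow (by linarith)]
    refine Real.log_le_log (by linarith) ?_
    have : (x : ℝ) ^ (2 : ℝ) = x ^ 2 := by exact_mod_cast Real.rpow_natCast x 2
    rw [this]
    nlinarith
  have hL'0 : 0 < L' := by linarith
  -- the size of `z`
  have hz1 : L' ^ B ≤ z := by
    calc L' ^ B ≤ (2 * L) ^ B := by gcongr
      _ = 2 ^ B * L ^ B := by rw [mul_pow]
      _ ≤ L * L ^ B := by gcongr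
      _ = L ^ (B + 1) := by ring
      _ ≤ z := Nat.le_ceil _
  have hone : (1 : ℝ) ≤ L ^ (B + 1) := one_le_pow₀ (by linarith)
  have hz2' : (z : ℝ) ≤ L ^ (B + 2) := by
    have h1 : (z : ℝ) < L ^ (B + 1) + 1 := Nat.ceil_lt_add_one (by positivity)
    have h2 : L ^ (B + 2) = L ^ (B + 1) * L := by ring
    rw [h2]
    nlinarith
  have hz2 : (z : ℝ) ≤ L' ^ (B + 2) := hz2'.trans (by gcongr)
  have hz4 : (4 : ℝ) ≤ z := by
    refine le_trans ?_ (Nat.le_ceil _)
    calc (4 : ℝ) ≤ L := e3
      _ = L ^ 1 := by ring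
      _ ≤ L ^ (B + 1) := pow_le_pow_right₀ (by linarith) (by omega)
  have hz3 : 3 ≤ z := by
    have : (3 : ℝ) ≤ z := by linarith
    exact_mod_cast this
  have hlz : Real.log z ≤ (B + 2) * Real.log L := by
    have h1 := Real.log_le_log (by linarith) hz2'
    rw [Real.log_pow] at h1
    push_cast at h1
    exact h1
  have hlz0 : 0 < Real.log z := Real.log_pos (by linarith)
  -- the exceptional set
  have hexc := hN (4 * x) (by omega) z (by rw [hcast]; exact hz1) (by rw [hcast]; exact hz2) 1 le_rfl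
    (by
      rw [hcast]
      push_cast
      exact Real.one_le_rpow (by linarith) (by norm_num))
    (by simp) 0 (by simp)
  rw [hcast] at hexc
  refine ⟨(Icc 1 x).filter (fun l => ¬ Good (A + 2) (4 * x) z (4 * l)), ?_, fun l hl1 hlx hlS => ?_⟩
  · have h1 : ((Icc 1 x).filter (fun l => ¬ Good (A + 2) (4 * x) z (4 * l))).card ≤
        exceptions (A + 2) (4 * x) z 1 0 := by
      unfold exceptions
      refine card_le_card_of_injOn (fun l => 4 * l) (fun l hl => ?_) (fun a _ b _ h => ?_)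
      · have hl' := mem_filter.1 (mem_coe.1 hl)
        rw [mem_Icc] at hl'
        refine mem_coe.2 (mem_filter.2 ⟨mem_Icc.2 ⟨?_, ?_⟩, Nat.modEq_one, hl'.2⟩)
        · show 1 ≤ 4 * l
          omega
        · show 4 * l ≤ 4 * x
          omega
      · have : 4 * a = 4 * b := h
        omega
    have h2 : (((Icc 1 x).filter (fun l => ¬ Good (A + 2) (4 * x) z (4 * l))).card : ℝ) ≤
        exceptions (A + 2) (4 * x) z 1 0 := by exact_mod_cast h1
    refine h2.trans (hexc.trans ?_)
    push_cast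
    rw [one_mul]
    have h3 : L ^ (A + 1) ≤ L' ^ (A + 1) := by gcongr
    calc 4 * (x : ℝ) / L' ^ (A + 1) ≤ 4 * x / L ^ (A + 1) := by gcongr
      _ = (4 / L) * (x / L ^ A) := by
        rw [pow_succ]
        field_simp
      _ ≤ 1 * (x / L ^ A) := by
        gcongr
        rw [div_le_one hL0]
        exact e3
      _ = _ := one_mul _
  · have hG : Good (A + 2) (4 * x) z (4 * l) := by
      by_contra h
      exact hlS (mem_filter.2 ⟨mem_Icc.2 ⟨hl1, hlx⟩, h⟩)
    have hsing : c₁ / Real.log L ≤ Sing (4 * l) z := by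
      refine le_trans ?_ (hS (4 * l) z hz3)
      rw [hc₁, div_div]
      gcongr
    have hloglog0 : 0 < Real.log L := by linarith
    refine ⟨?_, fun u v huv hv => ?_⟩
    · refine le_trans ?_ hsing
      gcongr
      linarith
    have g1 := hG.2 v hv
    have g2 := hG.2 u (lt_of_le_of_lt (Nat.pow_le_pow_left huv.le 2) hv)
    rw [hcast] at g1 g2
    have hsq : Real.sqrt (4 * x) = 2 * Real.sqrt x := by
      rw [Real.sqrt_mul (by norm_num)]
      congr 1
      rw [show (4 : ℝ) = 2 ^ 2 by norm_num, Real.sqrt_sq (by norm_num)]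
    rw [hsq] at g1 g2
    have hW := rep_sub l huv.le
    have hmain : |W l u v - Sing (4 * l) z * (v - u)| ≤ Real.sqrt x / L ^ (A + 1) := by
      have h1 : W l u v - Sing (4 * l) z * (v - u) =
          (Results.MP_d48457_nt.EveryModulus.Rep (4 * l) v - Sing (4 * l) z * v) -
            (Results.MP_d48457_nt.EveryModulus.Rep (4 * l) u - Sing (4 * l) z * u) := by
        rw [← hW]
        ring
      rw [h1]
      refine (abs_sub _ _).trans ((add_le_add g1 g2).trans ?_)
      have h2 : L ^ (A + 2) ≤ L' ^ (A + 2) := by gcongr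
      have h3 : 2 * Real.sqrt x / L' ^ (A + 2) ≤ 2 * Real.sqrt x / L ^ (A + 2) := by gcongr
      have h4 : 2 * Real.sqrt x / L ^ (A + 2) + 2 * Real.sqrt x / L ^ (A + 2) =
          (4 / L) * (Real.sqrt x / L ^ (A + 1)) := by
        rw [show A + 2 = (A + 1) + 1 from rfl, pow_succ L (A + 1)]
        field_simp
        ring
      have h5 : (4 / L) * (Real.sqrt x / L ^ (A + 1)) ≤ 1 * (Real.sqrt x / L ^ (A + 1)) := by
        gcongr
        rw [div_le_one hL0]
        exact e3
      linarith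
    have hle : Real.sqrt x / L ^ (A + 1) ≤ Real.sqrt x / L ^ A := by
      gcongr
      · linarith
      · omega
    refine ⟨hmain.trans hle, fun hlong => ?_⟩
    have hWle := W_le l u v x hlx
    have h6 := (abs_le.1 hmain).1
    have hvu : (0 : ℝ) ≤ v - u := by
      have : (u : ℝ) ≤ v := by exact_mod_cast huv.le
      linarith
    have h7 : c₁ / Real.log L * (v - u) ≤ Sing (4 * l) z * (v - u) := by gcongr
    have h8 : Real.sqrt x / L ^ (A + 1) ≤ c₁ / Real.log L * (v - u) / 2 := by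
      have h9 : Real.sqrt x / L ^ (A + 1) = (Real.sqrt x / L ^ A) / L := by
        rw [pow_succ]
        field_simp
      rw [h9]
      have h10 : (Real.sqrt x / L ^ A) / L ≤ (v - u) / L := by gcongr
      refine h10.trans ?_
      have h11 : 1 / L ≤ c₁ / Real.log L / 2 := by
        rw [div_div, div_le_div_iff₀ hL0 (by positivity), one_mul]
        have h12 : 2 / c₁ * Real.log L * c₁ ≤ L * c₁ := by gcongr
        have h13 : 2 / c₁ * Real.log L * c₁ = Real.log L * 2 := by field_simp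
        linarith
      calc ((v : ℝ) - u) / L = (v - u) * (1 / L) := by ring
        _ ≤ (v - u) * (c₁ / Real.log L / 2) := by gcongr
        _ = _ := by ring
    have h14 : c₁ / Real.log L * (v - u) / 2 ≤
        (((Ioc u v).filter (fun m => (4 * l - m ^ 2).Prime)).card : ℝ) * (2 * L) := by
      refine le_trans ?_ (hWle.trans (by gcongr))
      linarith
    rw [div_le_iff₀ (by positivity)]
    have h15 : c₁ / Real.log L * (v - u) / 2 * (Real.log L / 2) = c₁ / 4 * (v - u) := by
      field_simp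
      ring
    calc c₁ / 4 * ((v : ℝ) - u) = c₁ / Real.log L * (v - u) / 2 * (Real.log L / 2) := h15.symm
      _ ≤ (((Ioc u v).filter (fun m => (4 * l - m ^ 2).Prime)).card : ℝ) * (2 * L) * (Real.log L / 2) := by
        gcongr
      _ = _ := by ring

end Pool.Agent.V8H34.PPC
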