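import Mathlib
import Pool.Agent.V8H34.PPC.Cnt
import Pool.Agent.H373R2.T7.LamMaj

/-!
# Primes `≡ 3 mod 4`
-/

set_option autoImplicit false

namespace Pool.Agent.V8H34.PPC

open Finset ArithmeticFunction
open Pool.Agent.H373R2.T7 (lamAP lam1 sw_lam pnt_lam)

theorem lam34 : ∀ᶠ y : ℕ in Filter.atTop, |lamAP y 4 3 - y / 2| ≤ y / 100 := by
  obtain ⟨y0, h0⟩ := sw_lam 1 2
  obtain ⟨C, N1, hC, h1⟩ := pnt_lam 1
  filter_upwards [Filter.eventually_ge_atTop y0, Filter.eventually_ge_atTop N1,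
    Filter.eventually_ge_atTop 1000, tend.eventually_ge_atTop (1000 * (C + 1))] with y g1 g2 g3 g4
  have hy : (1000 : ℝ) ≤ y := by exact_mod_cast g3
  set L := Real.log y with hL
  have hL0 : 0 < L := by nlinarith
  have hL4 : (4 : ℝ) ≤ L ^ 2 := by nlinarith
  have a1 := h0 y g1 4 (by norm_num) (by push_cast; exact hL4) 3 (by decide)
  have a2 := h1 y g2
  have ht : (Nat.totient 4 : ℝ) = 2 := by
    have : Nat.totient 4 = 2 := by decide
    rw [this]
    norm_num
  rw [ht] at a1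
  rw [pow_one] at a1 a2
  have a3 : y / L ≤ y / 1000 := by
    gcongr
    nlinarith
  have a4 : C * (y / L) ≤ y / 1000 := by
    rw [mul_div_assoc', div_le_div_iff₀ hL0 (by norm_num)]
    nlinarith
  rw [abs_le] at a1 a2 ⊢
  constructor <;> linarith [a1.1, a1.2, a2.1, a2.2]

theorem nonprime_sum (y : ℕ) (hy : 1 ≤ y) :
    ∑ n ∈ (Icc 1 y).filter (fun n => ¬ n.Prime), Λ n ≤ 2 * Real.sqrt y * Real.log y := by
  have h1 := Chebyshev.abs_psi_sub_theta_le_sqrt_mul_log (x := y) (by exact_mod_cast hy)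
  have h2 : Chebyshev.psi y - Chebyshev.theta y = ∑ n ∈ (Icc 1 y).filter (fun n => ¬ n.Prime), Λ n := by
    unfold Chebyshev.psi Chebyshev.theta
    rw [Nat.floor_natCast]
    have e : Ioc 0 y = Icc 1 y := by
      ext x
      simp only [mem_Ioc, mem_Icc]
      omega
    rw [e, ← sum_filter_add_sum_filter_not (Icc 1 y) (fun n => n.Prime) (fun n => Λ n)]
    have e2 : ∑ n ∈ (Icc 1 y).filter (fun n => n.Prime), Λ n =
        ∑ n ∈ (Icc 1 y).filter (fun n => n.Prime), Real.log n :=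
      sum_congr rfl fun n hn => vonMangoldt_apply_prime (mem_filter.1 hn).2
    rw [e2]
    ring
  rw [← h2]
  exact (le_abs_self _).trans h1

theorem ap34 : ∀ᶠ y : ℕ in Filter.atTop, (y : ℝ) / (5 * Real.log y) ≤
    (((Ioc (y / 2) y).filter (fun l => l.Prime ∧ l % 4 = 3)).card : ℝ) := by
  have hh : Filter.Tendsto (fun y : ℕ => y / 2) Filter.atTop Filter.atTop :=
    Nat.tendsto_div_const_atTop (by norm_num)
  have hs : ∀ᶠ y : ℕ in Filter.atTop, 2 * Real.sqrt y * Real.log y ≤ (y : ℝ) / 100 := by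
    have h1 := (isLittleO_log_rpow_atTop (show (0 : ℝ) < 1 / 2 by norm_num)).bound
      (show (0 : ℝ) < 1 / 200 by norm_num)
    have h2 := (tendsto_natCast_atTop_atTop (R := ℝ)).eventually h1
    filter_upwards [h2, Filter.eventually_ge_atTop 1] with y h3 h4
    have hy : (1 : ℝ) ≤ y := by exact_mod_cast h4
    rw [Real.norm_of_nonneg (Real.log_nonneg hy), Real.norm_of_nonneg (by positivity),
      ← Real.sqrt_eq_rpow] at h3
    have h5 := Real.mul_self_sqrt (show (0 : ℝ) ≤ y by linarith)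
    have h6 := Real.sqrt_nonneg (y : ℝ)
    nlinarith
  filter_upwards [lam34, hh.eventually lam34, hs, Filter.eventually_ge_atTop 1000] with y h1 h2 h3 h4
  have hy : (1000 : ℝ) ≤ y := by exact_mod_cast h4
  have hL : 0 < Real.log y := Real.log_pos (by linarith)
  have hhalf : ((y / 2 : ℕ) : ℝ) ≤ y / 2 := Nat.cast_div_le
  have hhalf0 : (0 : ℝ) ≤ ((y / 2 : ℕ) : ℝ) := Nat.cast_nonneg _
  have hdiff : lamAP y 4 3 - lamAP (y / 2) 4 3 =
      ∑ n ∈ (Ioc (y / 2) y).filter (fun n => n ≡ 3 [MOD 4]), Λ n := by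
    unfold lamAP
    have e : Icc 1 y = Icc 1 (y / 2) ∪ Ioc (y / 2) y := by
      ext x
      simp only [mem_union, mem_Icc, mem_Ioc]
      omega
    have hd : Disjoint ((Icc 1 (y / 2)).filter (fun n => n ≡ 3 [MOD 4]))
        ((Ioc (y / 2) y).filter (fun n => n ≡ 3 [MOD 4])) := by
      rw [disjoint_left]
      intro x hx hx'
      have g1 := mem_Icc.1 (mem_filter.1 hx).1
      have g2 := mem_Ioc.1 (mem_filter.1 hx').1
      omega
    rw [e, filter_union, sum_union hd]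
    ring
  have hsplit : ∑ n ∈ (Ioc (y / 2) y).filter (fun n => n ≡ 3 [MOD 4]), Λ n ≤
      ∑ n ∈ (Ioc (y / 2) y).filter (fun l => l.Prime ∧ l % 4 = 3), Λ n +
      ∑ n ∈ (Icc 1 y).filter (fun n => ¬ n.Prime), Λ n := by
    rw [← sum_filter_add_sum_filter_not ((Ioc (y / 2) y).filter (fun n => n ≡ 3 [MOD 4]))
      (fun n => n.Prime) (fun n => Λ n)]
    refine add_le_add ?_ ?_
    · refine sum_le_sum_of_subset_of_nonneg (fun n hn => ?_) (fun _ _ _ => vonMangoldt_nonneg)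
      rw [mem_filter, mem_filter] at hn
      exact mem_filter.2 ⟨hn.1.1, hn.2, hn.1.2⟩
    · refine sum_le_sum_of_subset_of_nonneg (fun n hn => ?_) (fun _ _ _ => vonMangoldt_nonneg)
      rw [mem_filter, mem_filter, mem_Ioc] at hn
      exact mem_filter.2 ⟨mem_Icc.2 ⟨by omega, hn.1.1.2⟩, hn.2⟩
  have hcard : ∑ n ∈ (Ioc (y / 2) y).filter (fun l => l.Prime ∧ l % 4 = 3), Λ n ≤
      (((Ioc (y / 2) y).filter (fun l => l.Prime ∧ l % 4 = 3)).card : ℝ) * Real.log y := by
    rw [← nsmul_eq_mul]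
    refine sum_le_card_nsmul _ _ _ fun n hn => ?_
    have g1 := mem_filter.1 hn
    rw [vonMangoldt_apply_prime g1.2.1]
    refine Real.log_le_log (by exact_mod_cast g1.2.1.pos) ?_
    exact_mod_cast (mem_Ioc.1 g1.1).2
  have hnp := nonprime_sum y (by omega)
  rw [abs_le] at h1 h2
  have key : (y : ℝ) / 5 ≤
      (((Ioc (y / 2) y).filter (fun l => l.Prime ∧ l % 4 = 3)).card : ℝ) * Real.log y := by
    linarith [h1.1, h2.2]
  rw [div_le_iff₀ (by positivity)]
  linarith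

end Pool.Agent.V8H34.PPC
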