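import Mathlib
import Pool.Agent.V8H34.PPC.AP

/-!
# The number of the pairs `(a, ℓ)` in a box
-/

set_option autoImplicit false

namespace Pool.Agent.V8H34.PPC

open Finset

/-- Many pairs in the box. -/
theorem box : ∃ c : ℝ, 0 < c ∧ ∃ X₀ : ℕ, ∀ X : ℕ, X₀ ≤ X → ∃ Q : Finset ℕ,
    (∀ l ∈ Q, 1 ≤ l ∧ l ≤ X ^ 2 ∧ l.Prime ∧ l % 4 = 3) ∧
    c * X ^ 3 / (Real.log X ^ 2 * Real.log (Real.log X)) ≤
      ((∑ l ∈ Q, ((Ioc 0 X).filter (fun m => (4 * l - m ^ 2).Prime)).card : ℕ) : ℝ) := by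
  classical
  obtain ⟨c, hc, B, x₀, h⟩ := count 2
  have hsq : Filter.Tendsto (fun X : ℕ => X ^ 2) Filter.atTop Filter.atTop :=
    Filter.tendsto_pow_atTop (by norm_num)
  have hev := hsq.eventually ap34
  have hev2 : ∀ᶠ X : ℕ in Filter.atTop, 10 ≤ Real.log X ∧ 2 ≤ Real.log (Real.log X) ∧
      x₀ ≤ X ^ 2 ∧ (((X ^ 2 : ℕ) : ℝ)) / (5 * Real.log ((X ^ 2 : ℕ) : ℝ)) ≤
    (((Ioc (X ^ 2 / 2) (X ^ 2)).filter (fun l => l.Prime ∧ l % 4 = 3)).card : ℝ) := by
    filter_upwards [tend.eventually_ge_atTop 10, tend2.eventually_ge_atTop 2,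
      hsq.eventually (Filter.eventually_ge_atTop x₀), hev] with X h1 h2 h3 h4
    exact ⟨h1, h2, h3, h4⟩
  obtain ⟨X₀, hX₀⟩ := Filter.eventually_atTop.1 hev2
  refine ⟨c / 80, by positivity, max X₀ 2, fun X hX => ?_⟩
  obtain ⟨e1, e2, e3, e4⟩ := hX₀ X (le_trans (le_max_left _ _) hX)
  have hX2 : 2 ≤ X := le_trans (le_max_right _ _) hX
  have hXr : (2 : ℝ) ≤ X := by exact_mod_cast hX2
  obtain ⟨S, hS, hl⟩ := h (X ^ 2) e3
  set L := Real.log X with hL
  have hL0 : 0 < L := by linarith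
  have hLx : Real.log ((X ^ 2 : ℕ) : ℝ) = 2 * L := by
    push_cast
    rw [Real.log_pow]
    push_cast
    ring
  have hcast : ((X ^ 2 : ℕ) : ℝ) = (X : ℝ) ^ 2 := by push_cast; ring
  rw [hLx] at hS e4 hl
  rw [hcast] at hS e4 hl
  set Q := (Ioc (X ^ 2 / 2) (X ^ 2)).filter (fun l => l.Prime ∧ l % 4 = 3) with hQ
  set Q' := Q \ S with hQ'
  have hQcard : (X : ℝ) ^ 2 / (20 * L) ≤ (Q'.card : ℝ) := by
    have h1 : (Q.card : ℝ) ≤ Q'.card + S.card := by
      have h2 : Q.card ≤ Q'.card + S.card := by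
        have h3 : Q ⊆ Q' ∪ S := by
          intro x hx
          rw [mem_union]
          by_cases h4 : x ∈ S
          · exact Or.inr h4
          · exact Or.inl (mem_sdiff.2 ⟨hx, h4⟩)
        exact (card_le_card h3).trans (card_union_le _ _)
      exact_mod_cast h2
    have h5 : (X : ℝ) ^ 2 / (2 * L) ^ 2 ≤ (X : ℝ) ^ 2 / (20 * L) := by
      gcongr
      nlinarith
    have h6 : (X : ℝ) ^ 2 / (5 * (2 * L)) = 2 * ((X : ℝ) ^ 2 / (20 * L)) := by
      field_simp
      ring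
    linarith
  -- the number of the `a`
  have hfib : ∀ l ∈ Q', c * X / (8 * L * Real.log L) * 2 ≤
      (((Ioc 0 X).filter (fun m => (4 * l - m ^ 2).Prime)).card : ℝ) := by
    intro l hlQ
    obtain ⟨q1, q2⟩ := mem_sdiff.1 hlQ
    have q3 := mem_filter.1 q1
    rw [mem_Ioc] at q3
    have hp := q3.2.1
    have q4 := (hl l hp.one_le q3.1.2 q2).2 0 X (by omega) (by omega)
    have q5 := q4.2 (by
      rw [Real.sqrt_sq (by linarith)]
      push_cast
      rw [sub_zero]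
      refine div_le_self (by linarith) (one_le_pow₀ (by linarith)))
    push_cast at q5
    rw [sub_zero] at q5
    refine le_trans ?_ q5
    have h7 : Real.log (2 * L) ≤ 2 * Real.log L := by
      rw [Real.log_mul (by norm_num) (by linarith)]
      have : Real.log 2 ≤ Real.log L := Real.log_le_log (by norm_num) (by linarith)
      linarith
    have h8 : 0 < Real.log (2 * L) := Real.log_pos (by linarith)
    have h9 : c * X / (8 * L * Real.log L) * 2 = c * X / (2 * L * (2 * Real.log L)) := by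
      have : Real.log L ≠ 0 := by linarith
      field_simp
      ring
    rw [h9]
    gcongr
  refine ⟨Q', fun l hlQ => ?_, ?_⟩
  · obtain ⟨q1, q2⟩ := mem_sdiff.1 hlQ
    have q3 := mem_filter.1 q1
    rw [mem_Ioc] at q3
    exact ⟨q3.2.1.one_le, q3.1.2, q3.2.1, q3.2.2⟩
  · have h2 := sum_le_sum hfib
    rw [sum_const, nsmul_eq_mul] at h2
    rw [Nat.cast_sum]
    refine le_trans ?_ h2
    have hll : 0 < Real.log L := by linarith
    have h3 : (0 : ℝ) ≤ c * X / (8 * L * Real.log L) * 2 := by positivity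
    refine le_trans (le_of_eq ?_) (mul_le_mul_of_nonneg_right hQcard h3)
    have h4 : Real.log L ≠ 0 := hll.ne'
    field_simp
    ring

end Pool.Agent.V8H34.PPC
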