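import Mathlib
import Pool.Agent.V8H12.GT.Val
import Pool.Agent.V8H12.X49.Rank

/-!
# The descents of `y² = x³ + a x² + ℓ x`, `4 ℓ - a²` prime
-/

set_option autoImplicit false

namespace Pool.Agent.V8H34.PPC

open Pool.Agent.V8H12 Pool.Agent.V8H12.X49

/-- `4 ℓ - a²` is a prime. -/
def Pair (l : ℕ) (a : ℤ) : Prop := ∃ q : ℕ, q.Prime ∧ 4 * (l : ℤ) = q + a ^ 2

theorem dec1 : ∀ k t m : ZMod 16, m ^ 2 ≠ -1 - 2 * (2 * k + 1) * t ^ 2 + (12 - (2 * k + 1) ^ 2) * t ^ 4 := by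
  decide +kernel

theorem dec2 : ∀ k t m : ZMod 16,
    m ^ 2 ≠ -(2 * t) ^ 4 - 2 * (2 * k + 1) * (2 * t) ^ 2 + (12 - (2 * k + 1) ^ 2) := by
  decide +kernel

theorem odd_of {l : ℕ} {a : ℤ} (h : Pair l a) : a % 2 = 1 := by
  obtain ⟨q, hq, h1⟩ := h
  by_contra h2
  have h3 : a % 2 = 0 := by omega
  obtain ⟨k, hk⟩ : ∃ k, a = 2 * k := ⟨a / 2, by omega⟩
  have h4 : (q : ℤ) = 4 * (l - k ^ 2) := by
    rw [hk] at h1
    linarith
  have h5 : 4 ∣ q := by
    have : (4 : ℤ) ∣ q := ⟨_, h4⟩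
    exact_mod_cast this
  have h6 : (4 : ℕ) = 1 ∨ 4 = q := (Nat.dvd_prime hq).1 h5
  rcases h6 with h6 | h6
  · omega
  · rw [← h6] at hq
    exact absurd hq (by decide)

theorem four_l {l : ℕ} (hl : l % 4 = 3) : (4 * (l : ZMod 16)) = 12 := by
  obtain ⟨k, rfl⟩ : ∃ k, l = 4 * k + 3 := ⟨l / 4, by omega⟩
  push_cast
  have : (4 * (4 * (k : ZMod 16) + 3)) = 16 * k + 12 := by ring
  rw [this]
  have h16 : (16 : ZMod 16) = 0 := by decide
  rw [h16]
  ring

/-- the two adic obstruction -/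
theorem not_two {l : ℕ} (hl : l % 4 = 3) {a : ℤ} (ha : a % 2 = 1) :
    ¬ Sol ℚ_[2] (-1) (-2 * a) (4 * l - a ^ 2) := by
  intro h
  obtain ⟨k, hk⟩ : ∃ k, a = 2 * k + 1 := ⟨a / 2, by omega⟩
  have e12 := four_l hl
  let φ : ℤ_[2] →+* ZMod (2 ^ 4) := PadicInt.toZModPow 4
  have h16 : ((2 : ℕ) ^ 4) = 16 := by norm_num
  rcases prim h with ⟨t, m, h1⟩ | ⟨s, m, hs, h1⟩
  · have h2 := congrArg φ h1
    simp only [map_pow, map_add, map_mul, map_intCast] at h2
    have h3 : (φ m) ^ 2 = -1 - 2 * (2 * (k : ZMod (2 ^ 4)) + 1) * (φ t) ^ 2 +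
        (12 - (2 * (k : ZMod (2 ^ 4)) + 1) ^ 2) * (φ t) ^ 4 := by
      rw [h2, hk]
      have e : (4 * (l : ZMod (2 ^ 4))) = 12 := e12
      push_cast
      rw [e]
      ring
    exact dec1 k (φ t) (φ m) h3
  · have h2 := congrArg φ h1
    simp only [map_pow, map_add, map_mul, map_intCast] at h2
    have hs2 : ∃ u : ℤ_[2], s = 2 * u := by
      have h3 := (PadicInt.norm_lt_one_iff_dvd s).1 hs
      obtain ⟨u, hu⟩ := h3
      exact ⟨u, by simpa using hu⟩
    obtain ⟨u, rfl⟩ := hs2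
    have h3 : (φ m) ^ 2 = -(2 * φ u) ^ 4 - 2 * (2 * (k : ZMod (2 ^ 4)) + 1) * (2 * φ u) ^ 2 +
        (12 - (2 * (k : ZMod (2 ^ 4)) + 1) ^ 2) := by
      rw [h2, hk]
      have e : (4 * (l : ZMod (2 ^ 4))) = 12 := e12
      have e2 : φ (2 * u) = 2 * φ u := by rw [map_mul, map_ofNat]
      push_cast
      rw [map_mul, map_ofNat, e]
      ring
    exact dec2 k (φ u) (φ m) h3

theorem dvd_cases {p : ℕ} (hp : p.Prime) {d : ℤ} (h : d ∣ (p : ℤ)) :
    d = 1 ∨ d = -1 ∨ d = p ∨ d = -p := by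
  have h1 : d.natAbs ∣ p := by
    have := Int.natAbs_dvd_natAbs.2 h
    simpa using this
  rcases (Nat.dvd_prime hp).1 h1 with h2 | h2
  · rcases Int.natAbs_eq d with h3 | h3
    · left
      rw [h3, h2]
      rfl
    · right; left
      rw [h3, h2]
      rfl
  · rcases Int.natAbs_eq d with h3 | h3
    · right; right; left
      rw [h3, h2]
    · right; right; right
      rw [h3, h2]

theorem pos_of {l : ℕ} {a : ℤ} (h : Pair l a) : a ^ 2 < 4 * l := by
  obtain ⟨q, hq, h1⟩ := h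
  have := hq.pos
  have h2 : (0 : ℤ) < q := by exact_mod_cast this
  linarith

theorem sq_int_prime {p : ℕ} (hp : p.Prime) : Squarefree (p : ℤ) :=
  (Nat.prime_iff_prime_int.1 hp).squarefree

/-- The set of the first descent. -/
theorem sel1 {l : ℕ} (hl : l.Prime) {a : ℤ} (h : Pair l a) : SelSet a l = {1, (l : ℤ)} := by
  have hpos := pos_of h
  have hl0 : (l : ℤ) ≠ 0 := by exact_mod_cast hl.ne_zero
  ext d
  simp only [Set.mem_insert_iff, Set.mem_singleton_iff]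
  constructor
  · rintro ⟨h1, h2, h3, h4⟩
    rcases dvd_cases hl h2 with rfl | rfl | rfl | rfl
    · left; rfl
    · exfalso
      refine not_real (by norm_num) ?_ h3
      have e : (l : ℤ) / -1 = -l := by simp
      rw [e]
      linarith
    · right; rfl
    · exfalso
      refine not_real (by have := hl.pos; omega) ?_ h3
      have e : (l : ℤ) / -(l : ℤ) = -1 := by
        rw [Int.ediv_neg, Int.ediv_self hl0]
      rw [e]
      linarith
  · rintro (rfl | rfl)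
    · exact GT.one_mem a l
    · refine ⟨sq_int_prime hl, dvd_rfl, ?_, fun p _ => ?_⟩
      · rw [Int.ediv_self hl0]
        exact ⟨1, 0, 1, Or.inr one_ne_zero, by push_cast; ring⟩
      · rw [Int.ediv_self hl0]
        exact ⟨1, 0, 1, Or.inr one_ne_zero, by push_cast; ring⟩

/-- The set of the dual descent. -/
theorem sel2 {l : ℕ} (hl4 : l % 4 = 3) {a : ℤ} (h : Pair l a) :
    SelSet (-2 * a) (a ^ 2 - 4 * l) = {1, a ^ 2 - 4 * l} := by
  have ha := odd_of h
  obtain ⟨q, hq, h1⟩ := h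
  have e : a ^ 2 - 4 * (l : ℤ) = -q := by linarith
  have hn := not_two hl4 ha
  have e' : 4 * (l : ℤ) - a ^ 2 = q := by linarith
  rw [e'] at hn
  have hq0 : (q : ℤ) ≠ 0 := by exact_mod_cast hq.ne_zero
  rw [e]
  ext d
  simp only [Set.mem_insert_iff, Set.mem_singleton_iff]
  constructor
  · rintro ⟨g1, g2, g3, g4⟩
    have g2' : d ∣ (q : ℤ) := (dvd_neg).1 g2
    have hf2 : Fact (Nat.Prime 2) := ⟨Nat.prime_two⟩
    have g5 := g4 2
    rcases dvd_cases hq g2' with rfl | rfl | rfl | rfl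
    · left; rfl
    · exfalso
      have e3 : -(q : ℤ) / -1 = q := by simp
      rw [e3] at g5
      exact hn g5
    · exfalso
      have e3 : -(q : ℤ) / (q : ℤ) = -1 := by
        rw [Int.neg_ediv_self _ hq0]
      rw [e3] at g5
      exact hn g5.swap
    · right; rfl
  · rintro (rfl | rfl)
    · exact GT.one_mem _ _
    · have hne : -(q : ℤ) ≠ 0 := neg_ne_zero.2 hq0
      refine ⟨?_, dvd_rfl, ?_, fun p _ => ?_⟩
      · intro z hz
        exact sq_int_prime hq z ((dvd_neg).1 hz)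
      · rw [Int.ediv_self hne]
        exact ⟨1, 0, 1, Or.inr one_ne_zero, by push_cast; ring⟩
      · rw [Int.ediv_self hne]
        exact ⟨1, 0, 1, Or.inr one_ne_zero, by push_cast; ring⟩

theorem log_pair {x y : ℤ} (h : x ≠ y) : Nat.log 2 ({x, y} : Set ℤ).ncard = 1 := by
  rw [Set.ncard_pair h]
  decide

theorem not_sq_prime {p : ℕ} (hp : p.Prime) : ¬ IsSquare (p : ℤ) := by
  intro h
  exact (Nat.prime_iff_prime_int.1 hp).irreducible.not_isSquare h

theorem fin_pts {l : ℕ} (hl : l.Prime) (hl4 : l % 4 = 3) {a : ℤ} (h : Pair l a) :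
    Finite (WT (a : ℚ) ((l : ℤ) : ℚ)).toAffine.Point := by
  have hpos := pos_of h
  have hl0 : (l : ℤ) ≠ 0 := by exact_mod_cast hl.ne_zero
  refine GT.rank_zero (A := a) (B := l) hl0 (by linarith [hpos] : a ^ 2 - 4 * (l : ℤ) ≠ 0)
    (not_sq_prime hl) ?_ ?_ ?_
  · rintro ⟨z, hz⟩
    have := mul_self_nonneg z
    linarith
  · rw [sel1 hl h, log_pair]
    have := hl.one_lt
    omega
  · rw [sel2 hl4 h, log_pair]
    linarith

end Pool.Agent.V8H34.PPC
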